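import Pool.Agent.H54.RH.Targets

/-!
Row HB of the board `rhx_modules` (MP_def5ca_co): the points of a hexagon.
-/

set_option autoImplicit false

namespace Pool.Agent.H20.RHX

open Pool.Agent.H54.RH
open Pool.Agent.H54.PM (body)

theorem hb_pw {n : ℕ} (h : W n) (z y t : Fin n) :
    pw (Function.update (Function.update h z 0) y 2) t =
      if t = y then 2 else if t = z then 0 else ((h t).val : ℝ) := by
  unfold pw
  by_cases h1 : t = y
  · rw [if_pos h1, h1, Function.update_self]
    norm_num
  · rw [if_neg h1, Function.update_of_ne h1]
    by_cases h2 : t = z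
    · rw [if_pos h2, h2, Function.update_self]
      norm_num
    · rw [if_neg h2, Function.update_of_ne h2]

theorem hb_mem {n : ℕ} (h : W n) (z y : Fin n) (hz : h z = 1) (hy : h y = 1) (hzy : z ≠ y) :
    pw (Function.update (Function.update h z 0) y 2) ∈ body (hf h) := by
  classical
  refine subset_convexHull ℝ _ ?_
  rw [Finset.mem_coe]
  unfold hf
  rw [Finset.mem_image]
  exact ⟨_, Finset.mem_filter.mpr ⟨Finset.mem_univ _, z, y, hz, hy, hzy, rfl⟩, rfl⟩

theorem hb_conv {n : ℕ} (h : W n) : Convex ℝ (Pg h) := by
  intro x hx y hy a b ha hb hab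
  obtain ⟨hx1, hx2, hx3⟩ := hx
  obtain ⟨hy1, hy2, hy3⟩ := hy
  refine ⟨?_, ?_, ?_⟩
  · intro t ht
    rw [Pi.add_apply, Pi.smul_apply, Pi.smul_apply, hx1 t ht, hy1 t ht, smul_eq_mul, smul_eq_mul,
      ← add_mul, hab, one_mul]
  · intro t
    rw [Pi.add_apply, Pi.smul_apply, Pi.smul_apply, smul_eq_mul, smul_eq_mul]
    have h1 := hx2 t
    have h2 := hy2 t
    constructor
    · exact add_nonneg (mul_nonneg ha h1.1) (mul_nonneg hb h2.1)
    · have h3 := mul_le_mul_of_nonneg_left h1.2 ha
      have h4 := mul_le_mul_of_nonneg_left h2.2 hb
      have h5 : a * 2 + b * 2 = 2 := by rw [← add_mul, hab, one_mul]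
      linarith
  · have h1 : ∀ t, (a • x + b • y) t = a * x t + b * y t := fun t => rfl
    rw [Finset.sum_congr rfl fun t _ => h1 t, Finset.sum_add_distrib, ← Finset.mul_sum,
      ← Finset.mul_sum, hx3, hy3, ← add_mul, hab, one_mul]

theorem pf_HB : T_HB := by
  classical
  intro n h hc
  obtain ⟨i, j, k, hij, hik, hjk, hact⟩ := Finset.card_eq_three.mp hc
  have hmem : ∀ t, h t = 1 ↔ t = i ∨ t = j ∨ t = k := by
    intro t
    have h1 : t ∈ act h ↔ h t = 1 := by
      unfold act
      rw [Finset.mem_filter]
      exact ⟨fun h => h.2, fun h => ⟨Finset.mem_univ _, h⟩⟩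
    rw [← h1, hact]
    simp
  have hi : h i = 1 := (hmem i).mpr (Or.inl rfl)
  have hj : h j = 1 := (hmem j).mpr (Or.inr (Or.inl rfl))
  have hk : h k = 1 := (hmem k).mpr (Or.inr (Or.inr rfl))
  have hji := hij.symm
  have hki := hik.symm
  have hkj := hjk.symm
  apply Set.Subset.antisymm
  · unfold body
    refine convexHull_min ?_ (hb_conv h)
    intro x hx
    rw [Finset.mem_coe] at hx
    unfold hf at hx
    rw [Finset.mem_image] at hx
    obtain ⟨v, hv, rfl⟩ := hx
    obtain ⟨z, y, hz, hy, hzy, rfl⟩ := (Finset.mem_filter.mp hv).2
    refine ⟨?_, ?_, ?_⟩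
    · intro t ht
      rw [hb_pw, if_neg, if_neg]
      · rintro rfl
        exact ht hz
      · rintro rfl
        exact ht hy
    · intro t
      unfold pw
      constructor
      · exact Nat.cast_nonneg _
      · have h1 : (Function.update (Function.update h z 0) y 2 t).val ≤ 2 := by omega
        exact_mod_cast h1
    · rw [hact, Finset.sum_insert (by simp [hij, hik]), Finset.sum_insert (by simp [hjk]),
        Finset.sum_singleton, hb_pw, hb_pw, hb_pw, hi, hj, hk]
      rcases (hmem z).mp hz with rfl | rfl | rfl <;> rcases (hmem y).mp hy with rfl | rfl | rfl <;>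
        simp [hij, hik, hjk, hji, hki, hkj] at hzy ⊢ <;> norm_num
  · intro x hx
    obtain ⟨hx1, hx2, hx3⟩ := hx
    rw [hact, Finset.sum_insert (by simp [hij, hik]), Finset.sum_insert (by simp [hjk]),
      Finset.sum_singleton] at hx3
    have hxi := hx2 i
    have hxj := hx2 j
    have hxk := hx2 k
    have hcv : Convex ℝ (body (hf h)) := convex_convexHull ℝ _
    rcases le_total 1 (x k) with hk1 | hk1
    · have hs : 0 < x i + x j := by linarith
      have key : x = (x k - 1) • ((x i / (x i + x j)) •
            pw (Function.update (Function.update h j 0) k 2) +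
            (x j / (x i + x j)) • pw (Function.update (Function.update h i 0) k 2)) +
          (2 - x k) • ((x i / (x i + x j)) •
            pw (Function.update (Function.update h j 0) i 2) +
            (x j / (x i + x j)) • pw (Function.update (Function.update h i 0) j 2)) := by
        ext t
        simp only [Pi.add_apply, Pi.smul_apply, smul_eq_mul, hb_pw]
        by_cases h1 : t = i
        · subst h1
          simp [hij, hik, hi]
          field_simp
          have h3 : x k = 3 - x t - x j := by linarith
          rw [h3]
          ring
        by_cases h2 : t = j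
        · subst h2
          simp [hjk, hji, hj]
          field_simp
          have h3 : x k = 3 - x i - x t := by linarith
          rw [h3]
          ring
        by_cases h3 : t = k
        · subst h3
          simp [hki, hkj, hk]
          field_simp
          ring
        · have h4 : h t ≠ 1 := by
            rw [Ne, hmem t]
            tauto
          rw [hx1 t h4]
          simp [h1, h2, h3]
          field_simp
          ring
      rw [key]
      have e1 : x i / (x i + x j) + x j / (x i + x j) = 1 := by
        field_simp
      have e2 : 0 ≤ x i / (x i + x j) := div_nonneg hxi.1 hs.le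
      have e3 : 0 ≤ x j / (x i + x j) := div_nonneg hxj.1 hs.le
      refine hcv ?_ ?_ (by linarith) (by linarith) (by ring)
      · exact hcv (hb_mem h j k hj hk hjk) (hb_mem h i k hi hk hik) e2 e3 e1
      · exact hcv (hb_mem h j i hj hi hji) (hb_mem h i j hi hj hij) e2 e3 e1
    · have hs : 0 < (2 - x i) + (2 - x j) := by linarith
      have key : x = (1 - x k) • (((2 - x i) / ((2 - x i) + (2 - x j))) •
            pw (Function.update (Function.update h k 0) j 2) +
            ((2 - x j) / ((2 - x i) + (2 - x j))) •
            pw (Function.update (Function.update h k 0) i 2)) +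
          x k • (((2 - x i) / ((2 - x i) + (2 - x j))) •
            pw (Function.update (Function.update h i 0) j 2) +
            ((2 - x j) / ((2 - x i) + (2 - x j))) •
            pw (Function.update (Function.update h j 0) i 2)) := by
        have hs' : 2 - x i + (2 - x j) ≠ 0 := hs.ne'
        ext t
        simp only [Pi.add_apply, Pi.smul_apply, smul_eq_mul, hb_pw]
        by_cases h1 : t = i
        · subst h1
          simp [hij, hik, hi]
          field_simp
          have h3 : x k = 3 - x t - x j := by linarith
          rw [h3]
          ring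
        by_cases h2 : t = j
        · subst h2
          simp [hjk, hji, hj]
          field_simp
          have h3 : x k = 3 - x i - x t := by linarith
          rw [h3]
          ring
        by_cases h3 : t = k
        · subst h3
          simp [hki, hkj, hk]
          field_simp
        · have h4 : h t ≠ 1 := by
            rw [Ne, hmem t]
            tauto
          rw [hx1 t h4]
          simp [h1, h2, h3]
          field_simp
          ring
      rw [key]
      have e1 : (2 - x i) / ((2 - x i) + (2 - x j)) + (2 - x j) / ((2 - x i) + (2 - x j)) = 1 := by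
        field_simp
      have e2 : 0 ≤ (2 - x i) / ((2 - x i) + (2 - x j)) := div_nonneg (by linarith) hs.le
      have e3 : 0 ≤ (2 - x j) / ((2 - x i) + (2 - x j)) := div_nonneg (by linarith) hs.le
      refine hcv ?_ ?_ (by linarith) (by linarith) (by ring)
      · exact hcv (hb_mem h k j hk hj hkj) (hb_mem h k i hk hi hki) e2 e3 e1
      · exact hcv (hb_mem h i j hi hj hij) (hb_mem h j i hj hi hji) e2 e3 e1

end Pool.Agent.H20.RHX
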