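import Pool.Agent.H54.RH.Targets

/-!
Row SX of the board `rhx_modules` (MP_def5ca_co): the Euler characteristic after stacking.
-/

set_option autoImplicit false

namespace Pool.Agent.H20.RHX

open Pool.Agent.H54.RH

variable {n : ℕ}

theorem sx_mem_act {h : W n} {t : Fin n} : t ∈ act h ↔ h t = 1 := by
  unfold act
  rw [Finset.mem_filter]
  exact ⟨fun h => h.2, fun h => ⟨Finset.mem_univ _, h⟩⟩

theorem sx_mem_two {h : W n} {t : Fin n} : t ∈ two h ↔ h t = 2 := by
  unfold two
  rw [Finset.mem_filter]
  exact ⟨fun h => h.2, fun h => ⟨Finset.mem_univ _, h⟩⟩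

theorem sx_mem_blk {q : W n} {g : W (n + 1)} : g ∈ blk q ↔ (∀ t, q t ≠ 1 → g t.succ = q t) ∧
    (act g).card = 3 ∧ (two g).card = (two q).card + 1 := by
  unfold blk
  rw [Finset.mem_filter]
  exact ⟨fun h => h.2, fun h => ⟨Finset.mem_univ _, h⟩⟩

theorem sx_mem_vx {M : Finset (W n)} {v : W n} : v ∈ vx M ↔ ∃ h ∈ M, IsVx h v := by
  unfold vx
  rw [Finset.mem_filter]
  exact ⟨fun h => h.2, fun h => ⟨Finset.mem_univ _, h⟩⟩

/-- the number of the letters at a vertex -/
theorem sx_vx {h v : W n} (hv : IsVx h v) :
    (act h).card = (act v).card + 2 ∧ (two v).card = (two h).card + 1 := by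
  classical
  obtain ⟨z, y, hz, hy, hzy, rfl⟩ := hv
  constructor
  · have h1 : act h = insert z (insert y
        (act (Function.update (Function.update h z 0) y 2))) := by
      ext t
      rw [Finset.mem_insert, Finset.mem_insert, sx_mem_act, sx_mem_act]
      by_cases h1 : t = y
      · subst h1
        simp [hy]
      · rw [Function.update_of_ne h1]
        by_cases h2 : t = z
        · subst h2
          simp [hz]
        · rw [Function.update_of_ne h2]
          simp [h1, h2]
    rw [h1, Finset.card_insert_of_notMem, Finset.card_insert_of_notMem]
    · rw [sx_mem_act, Function.update_self]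
      decide
    · rw [Finset.mem_insert, not_or, sx_mem_act, Function.update_of_ne hzy,
        Function.update_self]
      exact ⟨hzy, by decide⟩
  · have h1 : two (Function.update (Function.update h z 0) y 2) = insert y (two h) := by
      ext t
      rw [Finset.mem_insert, sx_mem_two, sx_mem_two]
      by_cases h1 : t = y
      · subst h1
        simp
      · rw [Function.update_of_ne h1]
        by_cases h2 : t = z
        · subst h2
          simp [hz, h1]
        · rw [Function.update_of_ne h2]
          simp [h1]
    rw [h1, Finset.card_insert_of_notMem]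
    rw [sx_mem_two, hy]
    decide

/-- a vertex of a word agrees with it at the places with a letter other than 1 -/
theorem sx_off {h v : W n} (hv : IsVx h v) {t : Fin n} (ht : h t ≠ 1) : v t = h t := by
  obtain ⟨z, y, hz, hy, hzy, rfl⟩ := hv
  rw [Function.update_of_ne, Function.update_of_ne]
  · rintro rfl
    exact ht hz
  · rintro rfl
    exact ht hy

/-- the new coordinate and the moving coordinates of `q` -/
theorem sx_iota (q : W n) (hq : (act q).card = 4) : ∃ ι : Fin 5 → Fin (n + 1),
    Function.Injective ι ∧ ι 0 = 0 ∧ ∀ t, q t = 1 ↔ ∃ i, ι i = t.succ := by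
  classical
  let e := (act q).orderEmbOfFin hq
  let ι : Fin 5 → Fin (n + 1) := Fin.cons 0 fun i => (e i).succ
  have h0 : ι 0 = 0 := rfl
  have h1 : ∀ i : Fin 4, ι i.succ = (e i).succ := fun i => rfl
  refine ⟨ι, ?_, h0, ?_⟩
  · intro i j hij
    rcases Fin.eq_zero_or_eq_succ i with rfl | ⟨i, rfl⟩ <;>
      rcases Fin.eq_zero_or_eq_succ j with rfl | ⟨j, rfl⟩
    · rfl
    · rw [h0, h1] at hij
      exact absurd hij.symm (Fin.succ_ne_zero _)
    · rw [h0, h1] at hij
      exact absurd hij (Fin.succ_ne_zero _)
    · rw [h1, h1] at hij
      rw [e.injective (Fin.succ_injective _ hij)]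
  · intro t
    constructor
    · intro ht
      have h2 : t ∈ Set.range e := by
        rw [Finset.range_orderEmbOfFin, Finset.mem_coe, sx_mem_act]
        exact ht
      obtain ⟨i, hi⟩ := h2
      exact ⟨i.succ, by rw [h1, hi]⟩
    · rintro ⟨i, hi⟩
      rcases Fin.eq_zero_or_eq_succ i with rfl | ⟨i, rfl⟩
      · rw [h0] at hi
        exact absurd hi.symm (Fin.succ_ne_zero _)
      · rw [h1] at hi
        rw [← Fin.succ_injective _ hi, ← sx_mem_act]
        exact Finset.orderEmbOfFin_mem _ hq i

section

variable {q : W n} {ι : Fin 5 → Fin (n + 1)} (hι : Function.Injective ι) (h0 : ι 0 = 0)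
  (hιq : ∀ t, q t = 1 ↔ ∃ i, ι i = t.succ)

include hι h0 hιq

theorem sx_act {g : W (n + 1)} (hg : ∀ t, q t ≠ 1 → g t.succ = q t) :
    (act g).card = (act (g ∘ ι)).card := by
  classical
  rw [← Finset.card_image_of_injective (act (g ∘ ι)) hι]
  congr 1
  ext x
  rw [sx_mem_act, Finset.mem_image]
  constructor
  · intro hx
    rcases Fin.eq_zero_or_eq_succ x with rfl | ⟨t, rfl⟩
    · exact ⟨0, by rw [sx_mem_act, Function.comp_apply, h0]; exact hx, h0⟩
    · by_cases h1 : q t = 1
      · obtain ⟨i, hi⟩ := (hιq t).mp h1
        exact ⟨i, by rw [sx_mem_act, Function.comp_apply, hi]; exact hx, hi⟩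
      · rw [hg t h1] at hx
        exact absurd hx h1
  · rintro ⟨i, hi, rfl⟩
    rw [sx_mem_act] at hi
    exact hi

theorem sx_two {g : W (n + 1)} (hg : ∀ t, q t ≠ 1 → g t.succ = q t) :
    (two g).card = (two q).card + (two (g ∘ ι)).card := by
  classical
  rw [← Finset.card_image_of_injective (two (g ∘ ι)) hι,
    ← Finset.card_image_of_injective (two q) (Fin.succ_injective n), ← Finset.card_union_of_disjoint]
  · congr 1
    ext x
    rw [sx_mem_two, Finset.mem_union, Finset.mem_image, Finset.mem_image]
    constructor
    · intro hx
      rcases Fin.eq_zero_or_eq_succ x with rfl | ⟨t, rfl⟩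
      · exact Or.inr ⟨0, by rw [sx_mem_two, Function.comp_apply, h0]; exact hx, h0⟩
      · by_cases h1 : q t = 1
        · obtain ⟨i, hi⟩ := (hιq t).mp h1
          exact Or.inr ⟨i, by rw [sx_mem_two, Function.comp_apply, hi]; exact hx, hi⟩
        · rw [hg t h1] at hx
          exact Or.inl ⟨t, by rw [sx_mem_two]; exact hx, rfl⟩
    · rintro (⟨t, ht, rfl⟩ | ⟨i, hi, rfl⟩)
      · rw [sx_mem_two] at ht
        rw [hg t (by rw [ht]; decide), ht]
      · rw [sx_mem_two] at hi
        exact hi
  · rw [Finset.disjoint_left]
    intro x hx hx'
    rw [Finset.mem_image] at hx hx'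
    obtain ⟨t, ht, rfl⟩ := hx
    obtain ⟨i, _, hi⟩ := hx'
    rw [sx_mem_two, (hιq t).mpr ⟨i, hi⟩] at ht
    exact absurd ht (by decide)

/-- transport of a count -/
theorem sx_card (p : W 5 → Prop) [DecidablePred p] :
    (Finset.univ.filter fun g : W (n + 1) =>
      (∀ t, q t ≠ 1 → g t.succ = q t) ∧ p (g ∘ ι)).card =
      (Finset.univ.filter fun u : W 5 => p u).card := by
  classical
  refine Finset.card_nbij' (fun g => g ∘ ι) (fun u => Function.extend ι u (up q)) ?_ ?_ ?_ ?_
  · intro g hg
    simp only [Finset.coe_filter, Finset.mem_univ, true_and, Set.mem_ofPred_eq] at hg ⊢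
    exact hg.2
  · intro u hu
    simp only [Finset.coe_filter, Finset.mem_univ, true_and, Set.mem_ofPred_eq] at hu ⊢
    constructor
    · intro t ht
      rw [Function.extend_apply']
      · rfl
      · rintro ⟨i, hi⟩
        exact ht ((hιq t).mpr ⟨i, hi⟩)
    · have : Function.extend ι u (up q) ∘ ι = u := by
        funext i
        exact hι.extend_apply u (up q) i
      rw [this]
      exact hu
  · intro g hg
    simp only [Finset.coe_filter, Finset.mem_univ, true_and, Set.mem_ofPred_eq] at hg
    funext x
    by_cases hx : ∃ i, ι i = x
    · obtain ⟨i, rfl⟩ := hx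
      exact hι.extend_apply (g ∘ ι) (up q) i
    · change Function.extend ι (g ∘ ι) (up q) x = g x
      rw [Function.extend_apply' _ _ _ hx]
      rcases Fin.eq_zero_or_eq_succ x with rfl | ⟨t, rfl⟩
      · exact absurd ⟨0, h0⟩ hx
      · rw [hg.1 t (fun h => hx ((hιq t).mp h))]
        rfl
  · intro u _
    funext i
    exact hι.extend_apply u (up q) i

end

theorem sx_dec1 : (Finset.univ.filter fun u : W 5 =>
    u 0 ≠ 0 ∧ (act u).card = 3 ∧ (two u).card = 1).card = 16 := by
  decide +kernel

theorem sx_dec2 : (Finset.univ.filter fun u : W 5 =>
    u 0 ≠ 0 ∧ (act u).card = 1 ∧ (two u).card = 2).card = 18 := by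
  decide +kernel

theorem sx_dec3 : ∀ u : W 5, (act u).card = 1 → (two u).card = 2 →
    (∃ z, u z = 0) ∧ ∃ y, u y = 2 := by
  decide +kernel

theorem sx_dec4 : ∀ u : W 5, u 0 = 0 → (act u).card = 1 → (two u).card = 2 →
    ∃ p o y : Fin 5, p ≠ 0 ∧ o ≠ 0 ∧ y ≠ 0 ∧ p ≠ y ∧ u p = 2 ∧ u o = 0 ∧ u y = 2 ∧
      ∀ t, t ≠ 0 → t ≠ p → t ≠ o → t ≠ y → u t = 1 := by
  decide +kernel

theorem sx_up_inj : Function.Injective (up (n := n)) := by
  intro a b h
  funext t
  exact congrFun h t.succ

theorem sx_up_vx {h v : W n} : IsVx (up h) (up v) ↔ IsVx h v := by
  constructor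
  · rintro ⟨z, y, hz, hy, hzy, hv⟩
    rcases Fin.eq_zero_or_eq_succ z with rfl | ⟨z, rfl⟩
    · exact absurd (show (0 : Fin 3) = 1 from hz) (by decide)
    rcases Fin.eq_zero_or_eq_succ y with rfl | ⟨y, rfl⟩
    · exact absurd (show (0 : Fin 3) = 1 from hy) (by decide)
    refine ⟨z, y, hz, hy, fun h => hzy (by rw [h]), ?_⟩
    funext t
    have h1 := congrFun hv t.succ
    change v t = _ at h1
    rw [h1]
    by_cases h2 : t = y
    · rw [h2, Function.update_self, Function.update_self]
    · rw [Function.update_of_ne h2, Function.update_of_ne (fun h => h2 (Fin.succ_injective _ h))]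
      by_cases h3 : t = z
      · rw [h3, Function.update_self, Function.update_self]
      · rw [Function.update_of_ne h3, Function.update_of_ne (fun h => h3 (Fin.succ_injective _ h))]
        rfl
  · rintro ⟨z, y, hz, hy, hzy, hv⟩
    refine ⟨z.succ, y.succ, hz, hy, fun h => hzy (Fin.succ_injective _ h), ?_⟩
    funext x
    rcases Fin.eq_zero_or_eq_succ x with rfl | ⟨t, rfl⟩
    · rw [Function.update_of_ne (Fin.succ_ne_zero _).symm,
        Function.update_of_ne (Fin.succ_ne_zero _).symm]
      rfl
    · change v t = _
      rw [hv]
      by_cases h2 : t = y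
      · rw [h2, Function.update_self, Function.update_self]
      · rw [Function.update_of_ne h2, Function.update_of_ne (fun h => h2 (Fin.succ_injective _ h))]
        by_cases h3 : t = z
        · rw [h3, Function.update_self, Function.update_self]
        · rw [Function.update_of_ne h3,
            Function.update_of_ne (fun h => h3 (Fin.succ_injective _ h))]
          rfl

/-- letters of a vertex of a word of the block -/
theorem sx_blk_vx {q : W n} {g v : W (n + 1)} (hg : g ∈ blk q) (hv : IsVx g v) :
    (∀ t, q t ≠ 1 → v t.succ = q t) ∧ (act v).card = 1 ∧ (two v).card = (two q).card + 2 := by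
  obtain ⟨h1, h2, h3⟩ := sx_mem_blk.mp hg
  obtain ⟨h4, h5⟩ := sx_vx hv
  refine ⟨?_, by omega, by omega⟩
  intro t ht
  rw [sx_off hv (by rw [h1 t ht]; exact ht), h1 t ht]

theorem pf_SX (h0 : T_SA) : T_SX := by
  classical
  intro n b M q hM hF
  have hSA := h0 n b M q hM hF
  obtain ⟨ι, hι, hι0, hιq⟩ := sx_iota q hF.1
  -- the cell
  let cell : Finset (W n) := (act q).image fun w => Function.update q w 2
  have hcell : cell ⊆ M := by
    intro h hh
    obtain ⟨w, hw, rfl⟩ := Finset.mem_image.mp hh
    exact hF.2 w (sx_mem_act.mp hw)
  have hcc : cell.card = 4 := by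
    rw [← hF.1]
    refine Finset.card_image_of_injOn ?_
    intro w hw w' _ hww
    by_contra hne
    have h1 := congrFun hww w
    simp only [Function.update_self, Function.update_of_ne hne] at h1
    rw [Finset.mem_coe, sx_mem_act] at hw
    rw [hw] at h1
    exact absurd h1 (by decide)
  -- the number of hexagons
  have hstk : stk M q = (M \ cell).image up ∪ (blk q).filter (fun g => g 0 ≠ 0) := by
    ext g
    rw [hSA, Finset.mem_union, Finset.mem_image, Finset.mem_filter]
    constructor
    · rintro (⟨h, hh, hw, rfl⟩ | h)
      · refine Or.inl ⟨h, ?_, rfl⟩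
        rw [Finset.mem_sdiff]
        refine ⟨hh, ?_⟩
        intro hc
        obtain ⟨w, hw1, hw2⟩ := Finset.mem_image.mp hc
        exact hw w (sx_mem_act.mp hw1) hw2.symm
      · exact Or.inr h
    · rintro (⟨h, hh, rfl⟩ | h)
      · rw [Finset.mem_sdiff] at hh
        refine Or.inl ⟨h, hh.1, ?_, rfl⟩
        intro w hw hc
        exact hh.2 (Finset.mem_image.mpr ⟨w, sx_mem_act.mpr hw, hc.symm⟩)
      · exact Or.inr h
  have hb : ((blk q).filter (fun g => g 0 ≠ 0)).card = 16 := by
    rw [← sx_dec1, ← sx_card hι hι0 hιq]
    congr 1
    ext g
    rw [Finset.mem_filter, Finset.mem_filter, sx_mem_blk]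
    simp only [Finset.mem_univ, true_and, Function.comp_apply, hι0]
    constructor
    · rintro ⟨⟨h1, h2, h3⟩, h4⟩
      have h5 := sx_act hι hι0 hιq h1
      have h6 := sx_two hι hι0 hιq h1
      exact ⟨h1, h4, by omega, by omega⟩
    · rintro ⟨h1, h4, h2, h3⟩
      have h5 := sx_act hι hι0 hιq h1
      have h6 := sx_two hι hι0 hιq h1
      exact ⟨⟨h1, by omega, by omega⟩, h4⟩
  have hcard : (stk M q).card + 4 = M.card + 16 := by
    rw [hstk, Finset.card_union_of_disjoint, Finset.card_image_of_injective _ sx_up_inj, hb,
      Finset.card_sdiff_of_subset hcell, hcc]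
    · have := Finset.card_le_card hcell
      omega
    · rw [Finset.disjoint_left]
      intro g hg hg'
      obtain ⟨h, _, rfl⟩ := Finset.mem_image.mp hg
      exact (Finset.mem_filter.mp hg').2 rfl
  -- the number of vertices
  let V : Finset (W (n + 1)) := Finset.univ.filter fun g => (∀ t, q t ≠ 1 → g t.succ = q t) ∧
    ((g ∘ ι) 0 ≠ 0 ∧ (act (g ∘ ι)).card = 1 ∧ (two (g ∘ ι)).card = 2)
  have hV : V.card = 18 := by
    rw [← sx_dec2]
    exact sx_card hι hι0 hιq (fun u => u 0 ≠ 0 ∧ (act u).card = 1 ∧ (two u).card = 2)
  have hvx : vx (stk M q) = (vx M).image up ∪ V := by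
    ext v
    rw [sx_mem_vx, Finset.mem_union, Finset.mem_image]
    constructor
    · rintro ⟨g, hg, hv⟩
      rcases (hSA g).mp hg with ⟨h, hh, _, rfl⟩ | ⟨hgb, hg0⟩
      · left
        have h1 : v 0 = 0 := sx_off hv (show (up h) 0 ≠ 1 from (by decide : (0 : Fin 3) ≠ 1))
        have h2 : v = up fun t => v t.succ := by
          funext x
          rcases Fin.eq_zero_or_eq_succ x with rfl | ⟨t, rfl⟩
          · exact h1
          · rfl
        rw [h2, sx_up_vx] at hv
        exact ⟨_, sx_mem_vx.mpr ⟨h, hh, hv⟩, h2.symm⟩
      · obtain ⟨hv1, hv2, hv3⟩ := sx_blk_vx hgb hv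
        have h5 := sx_act hι hι0 hιq hv1
        have h6 := sx_two hι hι0 hιq hv1
        by_cases hv0 : v 0 = 0
        · left
          obtain ⟨p, o, y, hp0, ho0, hy0, hpy, hp, ho, hy, hrest⟩ := sx_dec4 (v ∘ ι)
            (by rw [Function.comp_apply, hι0, hv0]) (by omega) (by omega)
          have hsucc : ∀ i : Fin 5, i ≠ 0 → ∃ t : Fin n, ι i = t.succ := by
            intro i hi
            rcases Fin.eq_zero_or_eq_succ (ι i) with h | ⟨t, ht⟩
            · exact absurd (hι (h.trans hι0.symm)) hi
            · exact ⟨t, ht⟩
          obtain ⟨p', hp'⟩ := hsucc p hp0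
          obtain ⟨o', ho'⟩ := hsucc o ho0
          obtain ⟨y', hy'⟩ := hsucc y hy0
          have hqp : q p' = 1 := (hιq p').mpr ⟨p, hp'⟩
          have hqo : q o' = 1 := (hιq o').mpr ⟨o, ho'⟩
          have hqy : q y' = 1 := (hιq y').mpr ⟨y, hy'⟩
          rw [Function.comp_apply, hp'] at hp
          rw [Function.comp_apply, ho'] at ho
          rw [Function.comp_apply, hy'] at hy
          have hop : o' ≠ p' := by
            rintro rfl
            rw [ho] at hp
            exact absurd hp (by decide)
          have hoy : o' ≠ y' := by
            rintro rfl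
            rw [ho] at hy
            exact absurd hy (by decide)
          have hyp : y' ≠ p' := by
            rintro rfl
            exact hpy (hι (hp'.trans hy'.symm))
          refine ⟨fun t => v t.succ, sx_mem_vx.mpr ⟨_, hF.2 p' hqp, o', y', ?_, ?_, hoy, ?_⟩, ?_⟩
          · rw [Function.update_of_ne hop, hqo]
          · rw [Function.update_of_ne hyp, hqy]
          · funext t
            by_cases h1 : t = y'
            · rw [h1, Function.update_self, hy]
            rw [Function.update_of_ne h1]
            by_cases h2 : t = o'
            · rw [h2, Function.update_self, ho]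
            rw [Function.update_of_ne h2]
            by_cases h3 : t = p'
            · rw [h3, Function.update_self, hp]
            rw [Function.update_of_ne h3]
            by_cases h4 : q t = 1
            · obtain ⟨i, hi⟩ := (hιq t).mp h4
              rw [h4, ← hi]
              refine hrest i ?_ ?_ ?_ ?_
              · rintro rfl
                rw [hι0] at hi
                exact (Fin.succ_ne_zero _) hi.symm
              · rintro rfl
                exact h3 (Fin.succ_injective _ (hi.symm.trans hp'))
              · rintro rfl
                exact h2 (Fin.succ_injective _ (hi.symm.trans ho'))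
              · rintro rfl
                exact h1 (Fin.succ_injective _ (hi.symm.trans hy'))
            · exact hv1 t h4
          · funext x
            rcases Fin.eq_zero_or_eq_succ x with rfl | ⟨t, rfl⟩
            · exact hv0.symm
            · rfl
        · right
          rw [Finset.mem_filter]
          refine ⟨Finset.mem_univ _, hv1, ?_, by omega, by omega⟩
          rw [Function.comp_apply, hι0]
          exact hv0
    · rintro (⟨v1, hv1, rfl⟩ | hv)
      · obtain ⟨h, hh, hv⟩ := sx_mem_vx.mp hv1
        by_cases hc : ∀ w, q w = 1 → h ≠ Function.update q w 2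
        · exact ⟨up h, (hSA _).mpr (Or.inl ⟨h, hh, hc, rfl⟩), sx_up_vx.mpr hv⟩
        · push Not at hc
          obtain ⟨w, hw, rfl⟩ := hc
          obtain ⟨z, y, hz, hy, hzy, rfl⟩ := hv
          have hzw : z ≠ w := by
            rintro rfl
            rw [Function.update_self] at hz
            exact absurd hz (by decide)
          have hyw : y ≠ w := by
            rintro rfl
            rw [Function.update_self] at hy
            exact absurd hy (by decide)
          have hz' := hz
          have hy' := hy
          rw [Function.update_of_ne hzw] at hz'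
          rw [Function.update_of_ne hyw] at hy'
          have h3 := hM.three _ hh
          let g : W (n + 1) := Fin.cons 1 (Function.update (Function.update q w 2) z 0)
          have hg0 : g 0 = 1 := rfl
          have hgs : ∀ t : Fin n, g t.succ = Function.update (Function.update q w 2) z 0 t :=
            fun t => rfl
          have hgv : IsVx g (up (Function.update
              (Function.update (Function.update q w 2) z 0) y 2)) := by
            refine ⟨0, y.succ, hg0, ?_, (Fin.succ_ne_zero _).symm, ?_⟩
            · rw [hgs, Function.update_of_ne hzy.symm, hy]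
            · funext x
              rcases Fin.eq_zero_or_eq_succ x with rfl | ⟨t, rfl⟩
              · rw [Function.update_of_ne (Fin.succ_ne_zero _).symm, Function.update_self]
                rfl
              · change Function.update _ y 2 t = _
                by_cases h1 : t = y
                · rw [h1, Function.update_self, Function.update_self]
                · rw [Function.update_of_ne h1,
                    Function.update_of_ne (fun h => h1 (Fin.succ_injective _ h)),
                    Function.update_of_ne (Fin.succ_ne_zero _)]
                  rfl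
          have hact : (act g).card = 3 := by
            have h4 := (sx_vx hgv).1
            have h5 := (sx_vx (v := Function.update
              (Function.update (Function.update q w 2) z 0) y 2) ⟨z, y, hz, hy, hzy, rfl⟩).1
            have h6 : (act (up (Function.update
                (Function.update (Function.update q w 2) z 0) y 2))).card =
                (act (Function.update (Function.update (Function.update q w 2) z 0) y 2)).card := by
              rw [← Finset.card_image_of_injective _ (Fin.succ_injective n)]
              congr 1
              ext x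
              rw [sx_mem_act, Finset.mem_image]
              rcases Fin.eq_zero_or_eq_succ x with rfl | ⟨t, rfl⟩
              · constructor
                · intro h
                  exact absurd (show (0 : Fin 3) = 1 from h) (by decide)
                · rintro ⟨t, _, ht⟩
                  exact absurd ht (Fin.succ_ne_zero _)
              · constructor
                · intro h
                  exact ⟨t, sx_mem_act.mpr h, rfl⟩
                · rintro ⟨s, hs, hst⟩
                  rw [Fin.succ_injective _ hst] at hs
                  have h9 := sx_mem_act.mp hs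
                  exact h9
            omega
          have htwo : (two g).card = (two q).card + 1 := by
            rw [← Finset.card_insert_of_notMem (show w ∉ two q by
              rw [sx_mem_two, hw]; decide), ← Finset.card_image_of_injective _ (Fin.succ_injective n)]
            congr 1
            ext x
            rw [sx_mem_two, Finset.mem_image]
            rcases Fin.eq_zero_or_eq_succ x with rfl | ⟨t, rfl⟩
            · rw [hg0]
              constructor
              · intro h
                exact absurd h (by decide)
              · rintro ⟨t, _, ht⟩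
                exact absurd ht (Fin.succ_ne_zero _)
            · rw [hgs]
              constructor
              · intro h
                refine ⟨t, ?_, rfl⟩
                rw [Finset.mem_insert, sx_mem_two]
                by_cases h1 : t = z
                · rw [h1, Function.update_self] at h
                  exact absurd h (by decide)
                · rw [Function.update_of_ne h1] at h
                  by_cases h2 : t = w
                  · exact Or.inl h2
                  · rw [Function.update_of_ne h2] at h
                    exact Or.inr h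
              · rintro ⟨s, hs, hst⟩
                rw [Fin.succ_injective _ hst, Finset.mem_insert, sx_mem_two] at hs
                rcases hs with rfl | hs
                · rw [Function.update_of_ne hzw.symm, Function.update_self]
                · rw [Function.update_of_ne, Function.update_of_ne, hs]
                  · rintro rfl
                    rw [hw] at hs
                    exact absurd hs (by decide)
                  · rintro rfl
                    rw [hz'] at hs
                    exact absurd hs (by decide)
          refine ⟨g, (hSA _).mpr (Or.inr ⟨sx_mem_blk.mpr ⟨?_, hact, htwo⟩, ?_⟩), hgv⟩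
          · intro t ht
            rw [hgs, Function.update_of_ne, Function.update_of_ne]
            · rintro rfl
              exact ht hw
            · rintro rfl
              exact ht hz'
          · rw [hg0]
            decide
      · rw [Finset.mem_filter] at hv
        obtain ⟨_, hv1, hv0, hv2, hv3⟩ := hv
        have h5 := sx_act hι hι0 hιq hv1
        have h6 := sx_two hι hι0 hιq hv1
        obtain ⟨⟨z, hz⟩, y, hy⟩ := sx_dec3 (v ∘ ι) hv2 hv3
        rw [Function.comp_apply] at hz hy
        rw [Function.comp_apply, hι0] at hv0
        have hzy : ι z ≠ ι y := by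
          intro h
          rw [h, hy] at hz
          exact absurd hz (by decide)
        let g : W (n + 1) := Function.update (Function.update v (ι z) 1) (ι y) 1
        have hgv : IsVx g v := by
          refine ⟨ι z, ι y, ?_, ?_, hzy, ?_⟩
          · simp only [g]
            rw [Function.update_of_ne hzy, Function.update_self]
          · simp only [g]
            rw [Function.update_self]
          · funext x
            by_cases h1 : x = ι y
            · rw [h1, Function.update_self, hy]
            rw [Function.update_of_ne h1]
            by_cases h2 : x = ι z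
            · rw [h2, Function.update_self, hz]
            rw [Function.update_of_ne h2]
            simp only [g]
            rw [Function.update_of_ne h1, Function.update_of_ne h2]
        obtain ⟨h7, h8⟩ := sx_vx hgv
        have hgoff : ∀ t, q t ≠ 1 → g t.succ = q t := by
          intro t ht
          simp only [g]
          rw [Function.update_of_ne, Function.update_of_ne, hv1 t ht]
          · intro h
            exact ht ((hιq t).mpr ⟨z, h.symm⟩)
          · intro h
            exact ht ((hιq t).mpr ⟨y, h.symm⟩)
        refine ⟨g, (hSA _).mpr (Or.inr ⟨sx_mem_blk.mpr ⟨hgoff, by omega, by omega⟩, ?_⟩), hgv⟩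
        simp only [g]
        by_cases h1 : (0 : Fin (n + 1)) = ι y
        · rw [← h1, Function.update_self]
          decide
        rw [Function.update_of_ne h1]
        by_cases h2 : (0 : Fin (n + 1)) = ι z
        · rw [← h2, Function.update_self]
          decide
        rw [Function.update_of_ne h2]
        exact hv0
  have hvc : (vx (stk M q)).card = (vx M).card + 18 := by
    rw [hvx, Finset.card_union_of_disjoint, Finset.card_image_of_injective _ sx_up_inj, hV]
    rw [Finset.disjoint_left]
    intro g hg hg'
    obtain ⟨h, _, rfl⟩ := Finset.mem_image.mp hg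
    have h1 := (Finset.mem_filter.mp hg').2.2.1
    rw [Function.comp_apply, hι0] at h1
    exact h1 rfl
  unfold cx
  omega

end Pool.Agent.H20.RHX
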